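import Pool.Agent.H927.MG.SGoals

/-!
# Coefficientwise derivations of the coordinate rings (part `const_dd` of the project of helper927)
-/

set_option autoImplicit false

open AlgebraicGeometry CategoryTheory Limits Polynomial
open scoped LaurentPolynomial
open LaurentPolynomial (T invert T_add T_zero involutive_invert invert_T invert_C)

namespace Pool.Agent.H251.MG927

open Pool.Agent.H927.MG

section general

variable {A : Type} [CommRing A]

/-- the derivation of the algebra given by a derivation of the coefficients -/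
def bbDer (δ : Derivation ℤ A A) (d : Dat A) (hl : δ d.l = 0) (hm : δ d.m = 0) (hV : δ d.V = 0)
    (hT : δ d.T = 0) : Derivation ℤ (BB d) (BB d) :=
  Derivation.mk'
    (AddMonoidHom.toIntLinearMap
      { toFun := fun x => ⟨δ x.a, δ x.b, δ x.p, δ x.q⟩
        map_zero' := by ext <;> simp
        map_add' := fun x y => by ext <;> simp })
    (fun x y => by
      have hf : δ d.f = 0 := by
        simp only [Dat.f, map_sub, Derivation.leibniz, Derivation.leibniz_pow, hl, hm, hV, hT]
        simp
      ext
      · simp only [AddMonoidHom.coe_toIntLinearMap, AddMonoidHom.coe_mk, ZeroHom.coe_mk,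
          smul_eq_mul, BB.mul_a, BB.add_a, map_add, Derivation.leibniz, hf, hl, hm, hV, hT]
        ring
      · simp only [AddMonoidHom.coe_toIntLinearMap, AddMonoidHom.coe_mk, ZeroHom.coe_mk,
          smul_eq_mul, BB.mul_b, BB.add_b, map_add, map_sub, Derivation.leibniz, hf, hl, hm, hV, hT]
        ring
      · simp only [AddMonoidHom.coe_toIntLinearMap, AddMonoidHom.coe_mk, ZeroHom.coe_mk,
          smul_eq_mul, BB.mul_p, BB.add_p, map_add, map_sub, Derivation.leibniz, hf, hl, hm, hV, hT]
        ring
      · simp only [AddMonoidHom.coe_toIntLinearMap, AddMonoidHom.coe_mk, ZeroHom.coe_mk,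
          smul_eq_mul, BB.mul_q, BB.add_q, map_add, map_sub, Derivation.leibniz, hf, hl, hm, hV, hT]
        ring)

lemma bbDer_apply (δ : Derivation ℤ A A) (d : Dat A) (hl : δ d.l = 0) (hm : δ d.m = 0)
    (hV : δ d.V = 0) (hT : δ d.T = 0) (x : BB d) :
    bbDer δ d hl hm hV hT x = ⟨δ x.a, δ x.b, δ x.p, δ x.q⟩ := rfl

end general

variable {K : Type} [Field K] (D : Derivation ℤ K K)

/-- `D` as an additive map -/
def dA : K →+ K := (D : K →ₗ[ℤ] K).toAddMonoidHom

lemma dA_apply (a : K) : dA D a = D a := rfl

/-- coefficientwise extension to Laurent polynomials, additive map -/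
noncomputable def elA : K[T;T⁻¹] →+ K[T;T⁻¹] where
  toFun := AddMonoidAlgebra.map (dA D)
  map_zero' := AddMonoidAlgebra.map_zero _
  map_add' := AddMonoidAlgebra.map_add _

lemma elA_CT (a : K) (n : ℤ) :
    elA D (LaurentPolynomial.C a * T n) = LaurentPolynomial.C (D a) * T n := by
  rw [← LaurentPolynomial.single_eq_C_mul_T, ← LaurentPolynomial.single_eq_C_mul_T]
  exact AddMonoidAlgebra.map_single (dA D) a n

lemma elA_leibniz (x y : K[T;T⁻¹]) : elA D (x * y) = x * elA D y + y * elA D x := by
  induction x using LaurentPolynomial.induction_on' with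
  | add p q hp hq => rw [add_mul, map_add, hp, hq, map_add]; ring
  | C_mul_T n a =>
    induction y using LaurentPolynomial.induction_on' with
    | add p q hp hq => rw [mul_add, map_add, hp, hq, map_add]; ring
    | C_mul_T m b =>
      have e : LaurentPolynomial.C a * T n * (LaurentPolynomial.C b * T m) =
          LaurentPolynomial.C (a * b) * T (n + m) := by rw [map_mul, T_add]; ring
      rw [e, elA_CT, elA_CT, elA_CT, D.leibniz, smul_eq_mul, smul_eq_mul, map_add, map_mul, map_mul,
        T_add]
      ring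

/-- coefficientwise extension to Laurent polynomials -/
noncomputable def EL : Derivation ℤ K[T;T⁻¹] K[T;T⁻¹] :=
  Derivation.mk' (elA D).toIntLinearMap (fun x y => elA_leibniz D x y)

lemma EL_CT (a : K) (n : ℤ) :
    EL D (LaurentPolynomial.C a * T n) = LaurentPolynomial.C (D a) * T n := elA_CT D a n

lemma EL_T (n : ℤ) : EL D (T n) = 0 := by
  have := EL_CT D 1 n
  rwa [map_one, one_mul, D.map_one_eq_zero, map_zero, zero_mul] at this

/-- coefficientwise extension to polynomials, additive map -/
noncomputable def epA : K[X] →+ K[X] where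
  toFun p := ⟨AddMonoidAlgebra.map (dA D) p.toFinsupp⟩
  map_zero' := by
    apply Polynomial.toFinsupp_injective
    simp
  map_add' x y := by
    apply Polynomial.toFinsupp_injective
    simp [AddMonoidAlgebra.map_add]

lemma epA_monomial (n : ℕ) (a : K) : epA D (monomial n a) = monomial n (D a) := by
  apply Polynomial.toFinsupp_injective
  rw [Polynomial.toFinsupp_monomial]
  show AddMonoidAlgebra.map (dA D) (monomial n a).toFinsupp = _
  rw [Polynomial.toFinsupp_monomial]
  exact AddMonoidAlgebra.map_single (dA D) a n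

lemma epA_leibniz (x y : K[X]) : epA D (x * y) = x * epA D y + y * epA D x := by
  induction x using Polynomial.induction_on' with
  | add p q hp hq => rw [add_mul, map_add, hp, hq, map_add]; ring
  | monomial n a =>
    induction y using Polynomial.induction_on' with
    | add p q hp hq => rw [mul_add, map_add, hp, hq, map_add]; ring
    | monomial m b =>
      rw [monomial_mul_monomial, epA_monomial, epA_monomial, epA_monomial, monomial_mul_monomial,
        monomial_mul_monomial, add_comm m n, ← map_add, D.leibniz, smul_eq_mul, smul_eq_mul]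

/-- coefficientwise extension to polynomials -/
noncomputable def EP : Derivation ℤ K[X] K[X] :=
  Derivation.mk' (epA D).toIntLinearMap (fun x y => epA_leibniz D x y)

lemma EP_monomial (n : ℕ) (a : K) : EP D (monomial n a) = monomial n (D a) := epA_monomial D n a

lemma EP_C (a : K) : EP D (C a) = C (D a) := by
  have := EP_monomial D 0 a
  rwa [monomial_zero_left, monomial_zero_left] at this

lemma EP_X : EP D X = 0 := by
  have := EP_monomial D 1 1
  rwa [monomial_one_one_eq_X, D.map_one_eq_zero, map_zero] at this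

lemma EL_toLaurent (p : K[X]) : EL D (toLaurent p) = toLaurent (EP D p) := by
  induction p using Polynomial.induction_on' with
  | add p q hp hq => simp only [map_add, hp, hq]
  | monomial n a =>
    rw [Polynomial.toLaurent_C_mul_T, EL_CT, EP_monomial, Polynomial.toLaurent_C_mul_T]

lemma EL_inv (z : K[T;T⁻¹]) : EL D (inv K z) = inv K (EL D z) := by
  induction z using LaurentPolynomial.induction_on' with
  | add p q hp hq => simp only [map_add, hp, hq]
  | C_mul_T n a =>
    rw [inv_apply, inv_apply, EL_CT]
    simp only [map_mul, invert_C, invert_T]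
    rw [EL_CT]

lemma EL_toLaurent_zero {p : K[X]} (h : EP D p = 0) : EL D (toLaurent p) = 0 := by
  rw [EL_toLaurent, h, map_zero]

lemma EL_c2 {c : K[T;T⁻¹]} (hc : EL D c = 0) (p : K[X]) :
    EL D (c * inv K (toLaurent p)) = c * inv K (toLaurent (EP D p)) := by
  rw [Derivation.leibniz, hc, EL_inv, EL_toLaurent, smul_eq_mul, smul_eq_mul, mul_zero, add_zero]

lemma EL_x2 {x z : K[T;T⁻¹]} (hx : EL D x = 0) (hz : EL D z = 0) (p q : K[X]) :
    EL D (x * inv K (toLaurent p) + z * inv K (toLaurent q)) =
      x * inv K (toLaurent (EP D p)) + z * inv K (toLaurent (EP D q)) := by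
  rw [map_add, EL_c2 D hx, EL_c2 D hz]

lemma exists_dd (G : GD K) (hl : EP D G.d1.l = 0) (hm : EP D G.d1.m = 0) (hV : EP D G.d1.V = 0)
    (hT : EP D G.d1.T = 0) (hl2 : EP D G.d2.l = 0) (hm2 : EP D G.d2.m = 0) (hV2 : EP D G.d2.V = 0)
    (hT2 : EP D G.d2.T = 0) (hc : EL D G.g.c = 0) (hx : EL D G.g.x = 0) (hy : EL D G.g.y = 0)
    (hz : EL D G.g.z = 0) (ht : EL D G.g.t = 0) : Nonempty (DD D G) := by
  refine ⟨{
    D1 := bbDer (EP D) G.d1 hl hm hV hT
    D2 := bbDer (EP D) G.d2 hl2 hm2 hV2 hT2
    DL := bbDer (EL D) G.d1.L (EL_toLaurent_zero D hl) (EL_toLaurent_zero D hm)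
      (EL_toLaurent_zero D hV) (EL_toLaurent_zero D hT)
    h1 := fun r => ?_
    h2 := fun r => ?_
    c1 := fun w => ?_
    c2 := fun w => ?_ }⟩
  · apply BB.ext
    · exact EP_C D r
    · exact map_zero (EP D)
    · exact map_zero (EP D)
    · exact map_zero (EP D)
  · apply BB.ext
    · exact EP_C D r
    · exact map_zero (EP D)
    · exact map_zero (EP D)
    · exact map_zero (EP D)
  · apply BB.ext
    · exact EL_toLaurent D w.a
    · exact EL_toLaurent D w.b
    · exact EL_toLaurent D w.p
    · exact EL_toLaurent D w.q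
  · have e1 : inc2 G w = ⟨inv K (toLaurent w.a), G.g.c * inv K (toLaurent w.b),
        G.g.x * inv K (toLaurent w.p) + G.g.z * inv K (toLaurent w.q),
        G.g.y * inv K (toLaurent w.p) + G.g.t * inv K (toLaurent w.q)⟩ :=
      G.g.hom_apply (inc G.d2 w)
    have e2 : inc2 G (bbDer (EP D) G.d2 hl2 hm2 hV2 hT2 w) = ⟨inv K (toLaurent (EP D w.a)),
        G.g.c * inv K (toLaurent (EP D w.b)),
        G.g.x * inv K (toLaurent (EP D w.p)) + G.g.z * inv K (toLaurent (EP D w.q)),
        G.g.y * inv K (toLaurent (EP D w.p)) + G.g.t * inv K (toLaurent (EP D w.q))⟩ :=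
      G.g.hom_apply (inc G.d2 (bbDer (EP D) G.d2 hl2 hm2 hV2 hT2 w))
    rw [e1, e2]
    apply BB.ext
    · exact (EL_inv D _).trans (congrArg (inv K) (EL_toLaurent D w.a))
    · exact EL_c2 D hc w.b
    · exact EL_x2 D hx hz w.p w.q
    · exact EL_x2 D hy ht w.p w.q

theorem const_dd : S_const := by
  intro K _ D l0 l1 m0 m1 V0 V1 V2 V3 T0 T1 T2 h1 h2 h3 h4 h5 h6 h7 h8 h9 h10 h11
  apply exists_dd
  · show EP D (C l0 + C l1 * X) = 0
    simp only [map_add, Derivation.leibniz, EP_C, EP_X, h1, h2]
    simp
  · show EP D (C m0 + C m1 * X) = 0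
    simp only [map_add, Derivation.leibniz, EP_C, EP_X, h3, h4]
    simp
  · show EP D (C V0 + C V1 * X + C V2 * X ^ 2 + C V3 * X ^ 3) = 0
    simp only [map_add, Derivation.leibniz, Derivation.leibniz_pow, EP_C, EP_X, h5, h6, h7, h8]
    simp
  · show EP D (C T0 + C T1 * X + C T2 * X ^ 2) = 0
    simp only [map_add, Derivation.leibniz, Derivation.leibniz_pow, EP_C, EP_X, h9, h10, h11]
    simp
  · show EP D (C l1 + C l0 * X) = 0
    simp only [map_add, Derivation.leibniz, EP_C, EP_X, h1, h2]
    simp
  · show EP D (C m1 + C m0 * X) = 0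
    simp only [map_add, Derivation.leibniz, EP_C, EP_X, h3, h4]
    simp
  · show EP D (C V3 + C V2 * X + C V1 * X ^ 2 + C V0 * X ^ 3) = 0
    simp only [map_add, Derivation.leibniz, Derivation.leibniz_pow, EP_C, EP_X, h5, h6, h7, h8]
    simp
  · show EP D (C T2 + C T1 * X + C T0 * X ^ 2) = 0
    simp only [map_add, Derivation.leibniz, Derivation.leibniz_pow, EP_C, EP_X, h9, h10, h11]
    simp
  · exact EL_T D (-3)
  · exact EL_T D (-2)
  · exact map_zero (EL D)
  · exact map_zero (EL D)
  · exact EL_T D (-2)

end Pool.Agent.H251.MG927
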